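import Pool.Agent.H36.Cops.Game

set_option autoImplicit false

open Pool.Agent.H36.Cops Pool.Agent.H36.Skew

namespace Pool.Agent.Results.MP_985997_co.TwoCopWin

/-- Every connected perfect graph `G` with independence number three is `2`-cop-win: two cops have
a winning strategy, that is, `c(G) ≤ 2`. -/
theorem result {V : Type} [Fintype V] (G : SimpleGraph V) (hG : IsPerfect G) (hconn : G.Connected)
    (hα : G.indepNum = 3) : CopsWin G 2 :=
  copsWin_of_perfect hG hconn hα

end Pool.Agent.Results.MP_985997_co.TwoCopWin
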